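import Pool.Agent.N98.SS.Fin2
import Pool.Agent.N98.SS.Gen
import Pool.Agent.H176.DT.H12
import Pool.Agent.H176.DT.H13
import Pool.Agent.U186.ASC.IndStg

/-!
MP_1a953e_ag: semistable uniformization, in mixed and equal characteristic and in all dimensions, of
points of `X^ad` of all ranks, for varieties given by complete systems of equations whose terms have
degrees which are independent modulo `p`.

Let `k` be a (complete) discretely valued field with the ring of integers `O`, the uniformizer `π`
and the residue characteristic `p > 0`. Let `X` be an integral projective `k`-scheme with the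
function field `K`, with the projective flat model `𝒳` over `O`. Consider a point of the adic space
`X^ad` over the generic point of `X`, that is, a valuation ring `V` of `K`, of any rank, which
contains `O`, such that `π` is topologically nilpotent. Let `E ⊆ K` be a subfield with `k ⊆ E` (for
example, `E = k`), and `R` a noetherian ring with fraction field `E`, contained in the coordinate
ring of the affine chart of `𝒳` which contains the centre of `V`, such that `R` is a Dedekind ring
(for example, `R = O`), or `V ∩ E` is log uniformizable on `Spec R` (this is known if `R` is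
quasi-excellent of dimension at most `3`, by Cossart and Piltant). Suppose that `K` is generated over
`E` by finite-dimensional subspaces `W s` which satisfy a complete system of relations `f j = 0`,
where the `f j` are sums of products of elements of the subspaces (and of preceding `f l ≠ 0`) whose
degrees are independent modulo `p`. Suppose that the homogeneous coordinates of `𝒳` are monomials
(products of powers of elements of `E`, of the `W s` and of the `f l ≠ 0`), and that the elements of
the `W s` are quotients of regular functions on the chart, the denominators being monomials. Suppose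
that `|π|` is not a `p`-th power in the value group of `V`.

Then there are numbers `d` and `N₀` such that, for every `N ≥ N₀` divisible by `d`, for `l = k(ϖ)`,
`ϖ ^ N = π`, with the ring of integers `O[ϖ]`, and for every preimage `V'` of `V` in `X_l^ad`, a
blowing-up of `𝒳 ⊗ O[ϖ]` in a closed subscheme of the special fibre, that is, an admissible
blowing-up, is semistable at the specialization of `V'`, and at the specializations of all
generizations of `V'` in `X_l^ad`: the local ring is regular, and `ϖ` is a product of distinct
elements of a regular system of parameters. The number `d` is prime to `p` (so that one can choose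
`N` prime to `p` and `l / k` is tamely ramified), unless the value of `π` is infinitely near to a
`p`-th power `|z| ^ p` (all powers of the value of `π / z ^ p` are greater than the value of `π`);
in particular, `d` is prime to `p` if `V` has rank one. There is no condition on the dimension, on
the rank, on the defect and on the residue field of `V`.

Example: the hypersurfaces `∑ i, c i * ∏ s, ∏ t, g i s t = 0` in products of affine spaces with
the coordinate spaces `W s`, where the factors `g i s t` are arbitrary linear forms on `W s`, such
that the differences of the multidegrees of the terms are linearly independent modulo `p`; for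
instance `c 0 + ∑ i, c i * x i ^ (d i) = 0` with `d i` prime to `p`, and all towers and complete
intersections of such equations with new variables.

The proof: stages on which the homogeneous coordinates become monomials, from the main construction
of AscentLogUniformization (`Pool.Agent.W418.LU2`, mixed characteristic), adapted from
FrobeniusLevelsAdicPoints, which is the case of equal characteristic and of coefficients in a perfect
subfield; then the construction of semistable models from log regular ones of the starting files
(helper98, helper176 and others).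

helper186.
-/

set_option autoImplicit false

universe u

namespace Pool.Agent.Results.MP_1a953e_ag.IndependentDegreesAdicPoints

open Pool.Agent.W418.LU2

/-- The local ring of `Spec B` at the centre of the valuation ring `V`: the fractions of elements
of `B` whose denominators are units of `V`. -/
def centreRing {F : Type u} [Field F] (V : ValuationSubring F) (B : Subring F) : Subring F where
  carrier := {x | ∃ a ∈ B, ∃ b ∈ B, b ≠ 0 ∧ b⁻¹ ∈ V ∧ x = a * b⁻¹}
  mul_mem' := (lo V.toSubring B).mul_mem'
  one_mem' := (lo V.toSubring B).one_mem'
  add_mem' := (lo V.toSubring B).add_mem'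
  zero_mem' := (lo V.toSubring B).zero_mem'
  neg_mem' := (lo V.toSubring B).neg_mem'

/-- The subring `P` of the field `K` is a regular local ring, and `ϖ` is the product of some (at
least one) of the elements of a regular system of parameters. (If `ϖ` is a uniformizer of a discrete
valuation ring `O` with perfect residue field and `P` is the local ring of an integral flat
`O`-scheme of finite type at a point of the special fibre, then these elements `t i` define a
morphism from a neighbourhood of this point to `Spec O[t 0, ..., t d] / (t 0 * ... * t d - ϖ)` which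
is flat with regular, hence smooth, fibre through this point; so it is smooth there.) -/
def IsSemistable {K : Type u} [Field K] (P : Subring K) (ϖ : K) : Prop :=
  ∃ (_ : IsRegularLocalRing P) (n : ℕ) (x : Fin n → P) (S : Finset (Fin n)),
    Ideal.span (Set.range x) = IsLocalRing.maximalIdeal P ∧ ringKrullDim P = n ∧
      S.Nonempty ∧ ϖ = ∏ i ∈ S, (x i : K)

/-- The coordinate ring `O[v / w : v ∈ W]` of the chart `w ≠ 0` of the projective `O`-scheme
`Proj O[W]` with the function field `K` and the homogeneous coordinates `W ⊆ K`. -/
def chart {K : Type u} [Field K] (O : Subring K) (W : Set K) (w : K) : Subring K :=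
  Subring.closure ((O : Set K) ∪ {z | ∃ v ∈ W, z = v / w})

/-- `Y` is a finite set of forms of some degree `d` over `O` in the homogeneous coordinates `W`,
and `p ^ n` times any form of degree `d` is a linear combination of the forms in `Y`, for some `n`.
So the closed subscheme of `Proj O[W]` defined by the forms in `Y` is contained in the
fibre over `p`. -/
def IsVerticalCentre {K : Type u} [Field K] (O : Subring K) (p : K) (W Y : Set K) : Prop :=
  Y.Finite ∧ ∃ d n : ℕ, Y ⊆ ((Submodule.span O W) ^ d : Submodule O K) ∧
    ∀ z ∈ (Submodule.span O W) ^ d, p ^ n * z ∈ Submodule.span O Y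

/-- The homogeneous coordinates of the blowing-up of `Proj O[W]` in the closed subscheme which is
defined by the forms in `Y`. -/
def blowUpCoordinates {K : Type u} [Field K] (W Y : Set K) : Set K :=
  {z | ∃ y ∈ Y, ∃ v ∈ W, z = y * v}

/-- The projective scheme `Proj O[W]` is semistable at the centre of `V`, which lies in the chart
`w ≠ 0`. -/
def IsSemistableAt {K : Type u} [Field K] (V : ValuationSubring K) (O : Subring K) (W : Set K)
    (ϖ : K) : Prop :=
  ∃ w ∈ W, w ≠ 0 ∧ (∀ v ∈ W, v / w ∈ V) ∧ IsSemistable (centreRing V (chart O W w)) ϖ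

/-- The ring `O[ϖ]`. (If `O` is a discrete valuation ring with the uniformizer `π = ϖ ^ N`, then it
is the ring of integers of the totally ramified extension `k(ϖ)` of the field of fractions `k` of
`O`.) -/
def ramifiedRing {L K' : Type u} [Field L] [Field K'] (φ : L →+* K') (O : Subring L) (ϖ : K') :
    Subring K' :=
  Subring.closure ((O.map φ : Set K') ∪ {ϖ})

/-- `K' = K(ϖ)` with `ϖ ^ N = π`, and `V'` is a valuation ring of `K'` over the valuation ring `V`
of `K`. -/
def IsLift {K K' : Type u} [Field K] [Field K'] [Algebra K K'] (V : ValuationSubring K) (π : K)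
    (N : ℕ) (V' : ValuationSubring K') (ϖ : K') : Prop :=
  V'.comap (algebraMap K K') = V ∧ ϖ ^ N = algebraMap K K' π ∧
    ∀ z : K', z ∈ Subfield.closure (Set.range (algebraMap K K') ∪ {ϖ})

/-- The chart `A[I / f]` of the blowing-up of `Spec A` in the ideal `I`. -/
def blowUpChart {F : Type u} [Field F] (A : Subring F) (I : Ideal A) (f : A) : Subring F :=
  Subring.closure ((A : Set F) ∪ {z | ∃ a ∈ I, z = (a : F) / (f : F)})

/-- `P` is a regular local ring and the zero set of `J` is a divisor with strict normal
crossings: the radical of `J` is generated by the product of some of the elements of a regular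
system of parameters. -/
def RegularPair (P : Type u) [CommRing P] (J : Ideal P) : Prop :=
  ∃ (_ : IsRegularLocalRing P) (n : ℕ) (x : Fin n → P) (s : Finset (Fin n)),
    Ideal.span (Set.range x) = IsLocalRing.maximalIdeal P ∧ ringKrullDim P = n ∧
      J.radical = Ideal.span {∏ i ∈ s, x i}

/-- The blowing-up of `X = Spec A` in `V(I)` is a log desingularization of `(X, V(D))` along the
valuation ring `V`. Here `f ∈ I` generates `I V`, the centre of the lift of the valuation lies in
the chart `Spec A[I / f]`, and the ideal `D I` defines the preimage of `V(D) ∪ V(I)`. -/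
def IsLogDesingularization {F : Type u} [Field F] (V : ValuationSubring F) (A : Subring F)
    (D I : Ideal A) : Prop :=
  ∃ f ∈ I, f ≠ 0 ∧ (∀ a ∈ I, (a : F) / (f : F) ∈ V) ∧
    RegularPair (centreRing V (blowUpChart A I f))
      (Ideal.span {z | ∃ a ∈ D * I, (z : F) = (a : F)})

/-- The valuation ring `V` is log uniformizable on `Spec A`. (The blowings-up in the ideals
`I₀ * I₁` are cofinal: the blowing-up in `I₀ * I₁` factors through the blowing-up in `I₀`.) -/
def IsLogUniformizable {F : Type u} [Field F] (V : ValuationSubring F) (A : Subring F) : Prop :=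
  ∀ D I₀ : Ideal A, D ≠ ⊥ → I₀ ≠ ⊥ →
    ∃ I₁ : Ideal A, I₁ ≠ ⊥ ∧ IsLogDesingularization V A D (I₀ * I₁)

/-- `R` is a noetherian ring with fraction field `E`, which contains `O` and is contained in the
coordinate ring of the chart `w ≠ 0` of `Proj O[W]`, and `R` is a Dedekind ring (or a field), or
`V ∩ E` is log uniformizable on `Spec R`. -/
def IsBaseModel {E K : Type u} [Field E] [Field K] [Algebra E K] (V : ValuationSubring K)
    (O : Subring K) (W : Set K) (w : K) (R : Subring E) : Prop :=
  IsNoetherianRing R ∧ (∀ g : E, ∃ a ∈ R, ∃ b ∈ R, b ≠ 0 ∧ g = a * b⁻¹) ∧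
    O ≤ R.map (algebraMap E K) ∧ R.map (algebraMap E K) ≤ chart O W w ∧
    (IsDedekindDomain R ∨ IsLogUniformizable (V.comap (algebraMap E K)) R)

/-- The degree modulo `p` of a product of `d s` elements of `W s` for all `s` and of the powers
`f l ^ e l`, where `f l` has the degree `deg l`. -/
def degree {p n r : ℕ} (deg : Fin r → Fin n → ZMod p) (d : Fin n → ℕ) (e : Fin r → ℕ) :
    Fin n → ZMod p :=
  fun s => d s + ∑ l, e l * deg l s

/-- The group of monomials: the subgroup of `Kˣ` which is generated by the nonzero elements of
`E`, by the nonzero elements of the subspaces `Z s`, and by the nonzero elements `f l`. -/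
def monomials {E K : Type u} [Field E] [Field K] [Algebra E K] {n r : ℕ}
    (Z : Fin n → Submodule E K) (f : Fin r → K) : Subgroup Kˣ :=
  Subgroup.closure {u | (u : K) ∈ Set.range (algebraMap E K) ∨ (∃ s, (u : K) ∈ Z s) ∨
    ∃ l, (u : K) = f l}

/-- The nonzero homogeneous coordinates `W` are monomials, and the elements of the subspaces `Z s`
are quotients `c' / c` of elements of the coordinate ring of the chart `h ≠ 0` such that `c` is a
monomial. -/
def IsMonomialModel {E K : Type u} [Field E] [Field K] [Algebra E K] {n r : ℕ}
    (Z : Fin n → Submodule E K) (f : Fin r → K) (O : Subring K) (W : Set K) (h : K) : Prop :=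
  (∀ g ∈ W, g ≠ 0 → ∃ z ∈ monomials Z f, (z : K) = g) ∧
  ∀ s, ∀ y ∈ Z s, ∃ c ∈ chart O W h, (∃ z ∈ monomials Z f, (z : K) = c) ∧ c * y ∈ chart O W h

/-- Let `V` be a valuation ring of a field `K` in which the prime number `p` is not a unit. Let
`O ⊆ V` be a Dedekind ring (for example, a discrete valuation ring) and `π ≠ 0` an element of `O`
(for example, a uniformizer) with `|π| < 1`, such that the powers of `|π|` are cofinal. Let
`𝒳 = Proj O[W]` be an integral projective `O`-scheme with the function field `K` and the homogeneous
coordinates `W`; let the chart `h ≠ 0` contain the centre of `V`. Let `R` be a base model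
(`IsBaseModel`) with the fraction field `E`. Let `K` be generated over `E` by finite-dimensional
subspaces `Z 0, ..., Z (n - 1)`, and let `f 0, ..., f (r - 1)` be elements of `K` such that each
`f j` is a sum of terms, where a term is the product of a nonzero element `c j i` of `E`, of
`d j i s` nonzero elements `g j i s t` of `Z s` for all `s`, and of powers of elements `f l ≠ 0` with
`l < j`. Give `f j` the degree (in `(ℤ/p)^n`) of its first term, and suppose that the differences of
the degrees of the other terms of `f j` and the degree of `f j`, for all `j` together, are linearly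
independent modulo `p`. Suppose that the relations `f j = 0` are complete: the transcendence degree
of `K` over `E` is the sum of the dimensions of the `Z s` minus the number of indices `j` with
`f j = 0`. Let `𝒳` be given by monomials (`IsMonomialModel`). Suppose that `|π|` is not a `p`-th
power in the value group of `V`.

Then there are `D`, prime to `p` unless `|π|` is infinitely near to a `p`-th power, and `N₀` such
that for all `N ≥ N₀` divisible by `D` there are `K' = K(ϖ)`, `ϖ ^ N = π`, and valuation rings `V'`
of `K'` over `V`, and for all such `K'` and `V'` there is a closed subscheme of the fibre of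
`𝒳 ⊗ O[ϖ]` over `ϖ = 0` such that the blowing-up in this subscheme (the main component if
`K ⊗ k(ϖ)` is not a field) is semistable at the centres of all valuation rings `V₁ ⊇ V'` with
`|ϖ| < 1`. -/
theorem result {p : ℕ} [Fact p.Prime] {E K : Type u} [Field E] [Field K] [Algebra E K]
    (V : ValuationSubring K) (hpV : V.valuation (p : K) < 1)
    (O : Subring K) [IsDedekindDomain O] (hO : ∀ a ∈ O, a ∈ V)
    (π : K) (hπ : π ∈ O) (hπ0 : π ≠ 0) (hπ1 : V.valuation π < 1)
    (hπV : ∀ g : K, g ≠ 0 → ∃ n : ℕ, V.valuation π ^ n ≤ V.valuation g)
    (hdiv : ∀ g : K, V.valuation g ^ p ≠ V.valuation π)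
    (W : Set K) (hW : W.Finite) (h : K) (hh : h ∈ W) (hh0 : h ≠ 0) (hhV : ∀ g ∈ W, g / h ∈ V)
    (R : Subring E) (hR : IsBaseModel V O W h R)
    (n : ℕ) (Z : Fin n → Submodule E K) [∀ s, FiniteDimensional E (Z s)]
    (hgen : IntermediateField.adjoin E (⋃ s, (Z s : Set K)) = ⊤)
    (r : ℕ) (ι : Fin r → Type) [∀ j, Fintype (ι j)] (i₀ : ∀ j, ι j)
    (c : ∀ j, ι j → E) (hc : ∀ j i, c j i ≠ 0) (d : ∀ j, ι j → Fin n → ℕ)
    (g : ∀ j i s, Fin (d j i s) → K) (hgW : ∀ j i s t, g j i s t ∈ Z s)
    (hg0 : ∀ j i s t, g j i s t ≠ 0) (e : ∀ j, ι j → Fin r → ℕ) (f : Fin r → K)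
    (he : ∀ j i l, e j i l ≠ 0 → l < j ∧ f l ≠ 0)
    (hf : ∀ j, f j = ∑ i, algebraMap E K (c j i) * ((∏ s, ∏ t, g j i s t) * ∏ l, f l ^ e j i l))
    (deg : Fin r → Fin n → ZMod p) (hdeg : ∀ j, deg j = degree deg (d j (i₀ j)) (e j (i₀ j)))
    (hind : LinearIndependent (ZMod p) fun q : (j : Fin r) × {i : ι j // i ≠ i₀ j} =>
      degree deg (d q.1 q.2) (e q.1 q.2) - deg q.1)
    (htr : Algebra.trdeg E K + (Nat.card {j // f j = 0} : Cardinal.{u}) =
      ((∑ s, Module.finrank E (Z s) : ℕ) : Cardinal.{u}))
    (hM : IsMonomialModel Z f O W h) :
    ∃ D N₀ : ℕ, 0 < D ∧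
      (p ∣ D → ∃ g : K, ∀ n : ℤ, V.valuation π < V.valuation (π / g ^ p) ^ n) ∧
      ∀ N : ℕ, N₀ ≤ N → D ∣ N →
      (∃ (K' : Type u) (_ : Field K') (_ : Algebra K K') (V' : ValuationSubring K') (ϖ : K'),
        IsLift V π N V' ϖ) ∧
      ∀ {K' : Type u} [Field K'] [Algebra K K'] (V' : ValuationSubring K') (ϖ : K'),
        IsLift V π N V' ϖ →
        ∃ Y : Set K',
          IsVerticalCentre (ramifiedRing (algebraMap K K') O ϖ) ϖ (algebraMap K K' '' W) Y ∧
          ∀ V₁ : ValuationSubring K', V' ≤ V₁ → V₁.valuation ϖ < 1 →
            IsSemistableAt V₁ (ramifiedRing (algebraMap K K') O ϖ)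
              (blowUpCoordinates (algebraMap K K' '' W) Y) ϖ := by
  have hp : p.Prime := Fact.out
  obtain ⟨hRn, hfr, hOR, hRA, hRLU⟩ := hR
  obtain ⟨hWm, hWA⟩ := hM
  have hchV : chart O W h ≤ V.toSubring := by
    unfold chart
    rw [Subring.closure_le]
    rintro g (hg | ⟨g', hg', rfl⟩)
    · exact hO g hg
    · exact hhV g' hg'
  have hRW : R ≤ (V.comap (algebraMap E K)).toSubring := fun a ha => hchV (hRA ⟨a, ha, rfl⟩)
  have hLU : LogUnif (V.comap (algebraMap E K)) R := by
    rcases hRLU with hR | hR
    · exact logUnif_of_dedekind _ R hRW hfr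
    · exact hR
  obtain ⟨hMod, T', n', X, hSt, hmon⟩ := Pool.Agent.U186.RD.ind_stage V p hpV O hO R hfr hLU Z hgen
    ι i₀ c hc d g hgW hg0 e f he hf deg hdeg hind htr hW hh hh0 hhV hWm hOR hRA hWA π hπ hπ0
  have hval : ∀ q' : ℕ, q'.Prime → q' ≠ p → V.valuation (q' : K) = 1 := by
    intro q' hq' hne
    have hcop : Nat.Coprime q' p := (Nat.coprime_primes hq' hp).2 hne
    have hint : ∀ n : ℤ, V.valuation (n : K) ≤ 1 := fun n =>
      (V.valuation_le_one_iff _).2 (intCast_mem V n)
    refine le_antisymm (by exact_mod_cast hint q') ?_
    by_contra hlt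
    push Not at hlt
    have h1 : (q' : K) * (Nat.gcdA q' p : K) + (p : K) * (Nat.gcdB q' p : K) = 1 := by
      have h2 := Nat.gcd_eq_gcd_ab q' p
      rw [hcop] at h2
      have h3 := congrArg (fun n : ℤ => (n : K)) h2
      push_cast at h3
      exact h3.symm
    have h2 : V.valuation ((q' : K) * (Nat.gcdA q' p : K)) < 1 := by
      rw [map_mul]
      exact mul_lt_one_of_lt_of_le hlt (hint _)
    have h3 : V.valuation ((p : K) * (Nat.gcdB q' p : K)) < 1 := by
      rw [map_mul]
      exact mul_lt_one_of_lt_of_le hpV (hint _)
    have h4 := V.valuation.map_add_lt h2 h3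
    rw [h1, map_one] at h4
    exact lt_irrefl _ h4
  obtain ⟨d, N₀, hd, hvd, h3⟩ := Pool.Agent.N98.SS.ss_main_gen Pool.Agent.H176.DT.p_et6
    Pool.Agent.H176.DT.p_tor6 V O hO hW hh hh0 hhV hMod π hSt hmon hπ0 hπ1 hπV (by
      intro q' hq' hlt
      by_cases hne : q' = p
      · rw [hne]
        exact hdiv
      · rw [hval q' hq' hne] at hlt
        exact absurd hlt (lt_irrefl _))
  refine ⟨d, N₀ + 1, hd, ?_, fun N hN' hdN =>
    ⟨Pool.Agent.H176.DT.exists_root _ _ (by omega), ?_⟩⟩
  · intro hpd
    rcases hvd p hp hpd with h4 | h4
    · rw [h4] at hpV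
      exact absurd hpV (lt_irrefl _)
    · exact h4
  have hN : N₀ ≤ N := by omega
  rintro K' _ _ V' ϖ ⟨hV', hϖ, hgen'⟩
  obtain ⟨Y, d', n', h4, h5, h6, w', h7, h8, h9, P, h10, h11⟩ := h3 N hN hdN V' ϖ hV' hϖ hgen'
  have h12 : ramifiedRing (algebraMap K K') O ϖ = Pool.Agent.H176.DT.Orm O ϖ := rfl
  rw [h12]
  refine ⟨Y, ⟨h4, d', n', h5, h6⟩, fun V₁ hV₁ hϖ₁ => ⟨w', h7, h8, fun z hz => hV₁ (h9 z hz), ?_⟩⟩
  subst h10
  have hOV' : ∀ a : K, a ∈ V → algebraMap K K' a ∈ V' := by
    intro a ha
    have h13 : a ∈ V'.comap (algebraMap K K') := by rw [hV']; exact ha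
    exact h13
  have hϖV : ϖ ∈ V' := by
    rw [← V'.valuation_le_one_iff]
    by_contra hcon
    push Not at hcon
    have h13 : 1 < V'.valuation ϖ ^ N := one_lt_pow₀ hcon (by omega)
    rw [← map_pow, hϖ] at h13
    exact absurd ((V'.valuation_le_one_iff _).2 (hOV' π (hO π hπ))) (not_le.2 h13)
  refine Pool.Agent.N98.SS.semi_coarse V' V₁ hV₁ _ ?_ ϖ hϖ₁ h11
  unfold chart
  rw [Subring.closure_le]
  rintro z (hz | ⟨y, hy, rfl⟩)
  · refine (?_ : Pool.Agent.H176.DT.Orm O ϖ ≤ V'.toSubring) hz
    change Subring.closure ((O.map (algebraMap K K') : Set K') ∪ {ϖ}) ≤ _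
    rw [Subring.closure_le]
    rintro z (⟨a, ha, rfl⟩ | hz)
    · exact hOV' a (hO a ha)
    · rw [Set.mem_singleton_iff.1 hz]
      exact hϖV
  · exact h9 y hy

end Pool.Agent.Results.MP_1a953e_ag.IndependentDegreesAdicPoints
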