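import Pool.Agent.N98.SS.Mult
import Pool.Agent.N98.SS.Gener2
import Pool.Agent.U186.ASC.IndStg

/-!
MP_1a953e_ag: for every point of `X^ad` over the generic point of `X`, an admissible blowing-up of
the model which is regular, with a special fibre with normal crossings, at the specialization of the
point; in mixed and equal characteristic and in all dimensions, for varieties given by complete
systems of equations whose terms have degrees which are independent modulo `p`.

Let `k` be a (complete) discretely valued field with the ring of integers `O`, the uniformizer `π`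
and the residue characteristic `p > 0`. Let `X` be an integral projective `k`-scheme with the
function field `K`, with the projective flat model `𝒳` over `O`. Consider an arbitrary point of the
adic space `X^ad` over the generic point of `X`, that is, a valuation ring `V` of `K`, of any rank,
which contains `O`, such that `π` is topologically nilpotent: `K = V[1/π]`, `|π| < 1`. Let `E ⊆ K` be
a subfield with `k ⊆ E` (for example, `E = k`), and `R` a noetherian ring with fraction field `E`
which contains `O` and lies in the coordinate rings of the charts of `𝒳`, such that `R` is a Dedekind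
ring (for example, `R = O`), or `V ∩ E` is log uniformizable on `Spec R` (this is known if `R` is
quasi-excellent of dimension at most `3`, by Cossart and Piltant). Suppose that `K` is generated over
`E` by finite-dimensional subspaces `Z s` which satisfy a complete system of relations `f j = 0`,
where the `f j` are sums of products of elements of the subspaces (and of preceding `f l ≠ 0`) whose
degrees are independent modulo `p`. Suppose that the homogeneous coordinates of `𝒳` are monomials
(products of powers of elements of `E`, of the `Z s` and of the `f l ≠ 0`), and that the elements of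
the `Z s` are quotients of regular functions on every chart, the denominators being monomials.

Then a blowing-up of `𝒳` in a closed subscheme of the special fibre, that is, an admissible
blowing-up, is regular at the specialization of `V`, and at the specializations of all generizations
of `V`, and `π` is a unit times a product of powers of elements of a regular system of parameters
there: the special fibre is a divisor with normal crossings (with multiplicities). No extension of
`k` is necessary, and there is no condition on the value of `π`. If `|π|` is not a `p`-th power in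
the value group then a semistable model exists after an extension `k(π ^ (1 / N))`
(IndependentDegreesAdicPoints); here also the points with `|π| = |z| ^ p` are allowed, for which the
first step, the normal crossings, holds, and where the multiplicities of the special fibre can be
divisible by `p`. There is no condition on the dimension, on the rank, on the defect and on the
residue field of `V`.

The proof combines the stages of IndependentDegreesAdicPoints with the blowings-up in vertical
centres of MP_602153_ag.BoundedDegreeAtValuations (helper98).

helper186.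
-/

set_option autoImplicit false

universe u

namespace Pool.Agent.Results.MP_1a953e_ag.NormalCrossingsAllPoints

open IsLocalRing Pool.Agent.W418.LU2 Pool.Agent.TH188.QS

/-- The local ring of `Spec B` at the centre of the valuation ring `V`: the fractions of elements
of `B` whose denominators are units of `V`. -/
def centreRing {F : Type u} [Field F] (V : ValuationSubring F) (B : Subring F) : Subring F where
  carrier := {x | ∃ a ∈ B, ∃ b ∈ B, b ≠ 0 ∧ b⁻¹ ∈ V ∧ x = a * b⁻¹}
  mul_mem' := (lo V.toSubring B).mul_mem'
  one_mem' := (lo V.toSubring B).one_mem'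
  add_mem' := (lo V.toSubring B).add_mem'
  zero_mem' := (lo V.toSubring B).zero_mem'
  neg_mem' := (lo V.toSubring B).neg_mem'

/-- The coordinate ring `O[v / w : v ∈ W]` of the chart `w ≠ 0` of the projective `O`-scheme
`Proj O[W]` with the function field `K` and the homogeneous coordinates `W ⊆ K`. -/
def chart {K : Type u} [Field K] (O : Subring K) (W : Set K) (w : K) : Subring K :=
  Subring.closure ((O : Set K) ∪ {z | ∃ v ∈ W, z = v / w})

/-- `Y` is a finite set of forms of some degree `d` over `O` in the homogeneous coordinates `W`,
and `N ^ n` times any form of degree `d` is a linear combination of the forms in `Y`, for some `n`.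
So the closed subscheme of `Proj O[W]` defined by the forms in `Y` is contained in the zero set of
`N`. -/
def IsVerticalCentre {K : Type u} [Field K] (O : Subring K) (N : K) (W Y : Set K) : Prop :=
  Y.Finite ∧ ∃ d n : ℕ, Y ⊆ ((Submodule.span O W) ^ d : Submodule O K) ∧
    ∀ z ∈ (Submodule.span O W) ^ d, N ^ n * z ∈ Submodule.span O Y

/-- The homogeneous coordinates of the blowing-up of `Proj O[W]` in the closed subscheme which is
defined by the forms in `Y`. -/
def blowUpCoordinates {K : Type u} [Field K] (W Y : Set K) : Set K :=
  {z | ∃ y ∈ Y, ∃ v ∈ W, z = y * v}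

/-- `P` is a regular local ring, and `p` is a unit times a product of powers of elements of a regular
system of parameters `x`. -/
def HasNormalCrossings {K : Type u} [Field K] (P : Subring K) (p : K) : Prop :=
  ∃ (_ : IsRegularLocalRing P) (n : ℕ) (x : Fin n → P) (e : Fin n → ℕ) (c : Pˣ),
    Ideal.span (Set.range x) = IsLocalRing.maximalIdeal P ∧ ringKrullDim P = n ∧
      p = ((c : P) : K) * ∏ i, (x i : K) ^ e i

/-- The projective scheme `Proj O[W]` is regular at the centre of `V`, which lies in the chart
`w ≠ 0`, and the zero set of `p` is a divisor with normal crossings there. -/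
def IsRegularAtCentre {K : Type u} [Field K] (V : ValuationSubring K) (O : Subring K) (W : Set K)
    (p : K) : Prop :=
  ∃ w ∈ W, w ≠ 0 ∧ (∀ v ∈ W, v / w ∈ V) ∧ HasNormalCrossings (centreRing V (chart O W w)) p

/-- The chart `A[I / f]` of the blowing-up of `Spec A` in the ideal `I`. -/
def blowUpChart {F : Type u} [Field F] (A : Subring F) (I : Ideal A) (f : A) : Subring F :=
  Subring.closure ((A : Set F) ∪ {z | ∃ a ∈ I, z = (a : F) / (f : F)})

/-- `P` is a regular local ring and the zero set of `J` is a divisor with strict normal
crossings: the radical of `J` is generated by the product of some of the elements of a regular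
system of parameters. -/
def RegularPair (P : Type u) [CommRing P] (J : Ideal P) : Prop :=
  ∃ (_ : IsRegularLocalRing P) (n : ℕ) (x : Fin n → P) (s : Finset (Fin n)),
    Ideal.span (Set.range x) = IsLocalRing.maximalIdeal P ∧ ringKrullDim P = n ∧
      J.radical = Ideal.span {∏ i ∈ s, x i}

/-- The blowing-up of `X = Spec A` in `V(I)` is a log desingularization of `(X, V(D))` along the
valuation ring `V`. Here `f ∈ I` generates `I V`, the centre of the lift of the valuation lies in
the chart `Spec A[I / f]`, and the ideal `D I` defines the preimage of `V(D) ∪ V(I)`. -/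
def IsLogDesingularization {F : Type u} [Field F] (V : ValuationSubring F) (A : Subring F)
    (D I : Ideal A) : Prop :=
  ∃ f ∈ I, f ≠ 0 ∧ (∀ a ∈ I, (a : F) / (f : F) ∈ V) ∧
    RegularPair (centreRing V (blowUpChart A I f))
      (Ideal.span {z | ∃ a ∈ D * I, (z : F) = (a : F)})

/-- The valuation ring `V` is log uniformizable on `Spec A`. (The blowings-up in the ideals
`I₀ * I₁` are cofinal: the blowing-up in `I₀ * I₁` factors through the blowing-up in `I₀`.) -/
def IsLogUniformizable {F : Type u} [Field F] (V : ValuationSubring F) (A : Subring F) : Prop :=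
  ∀ D I₀ : Ideal A, D ≠ ⊥ → I₀ ≠ ⊥ →
    ∃ I₁ : Ideal A, I₁ ≠ ⊥ ∧ IsLogDesingularization V A D (I₀ * I₁)

/-- The degree modulo `p` of a product of `d s` elements of `W s` for all `s` and of the powers
`f l ^ e l`, where `f l` has the degree `deg l`. -/
def degree {p n r : ℕ} (deg : Fin r → Fin n → ZMod p) (d : Fin n → ℕ) (e : Fin r → ℕ) :
    Fin n → ZMod p :=
  fun s => d s + ∑ l, e l * deg l s

/-- The group of monomials: the subgroup of `Kˣ` which is generated by the nonzero elements of
`E`, by the nonzero elements of the subspaces `Z s`, and by the nonzero elements `f l`. -/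
def monomials {E K : Type u} [Field E] [Field K] [Algebra E K] {n r : ℕ}
    (Z : Fin n → Submodule E K) (f : Fin r → K) : Subgroup Kˣ :=
  Subgroup.closure {u | (u : K) ∈ Set.range (algebraMap E K) ∨ (∃ s, (u : K) ∈ Z s) ∨
    ∃ l, (u : K) = f l}

/-- `R` is a noetherian ring with fraction field `E`, which contains `O` and is contained in the
coordinate rings of all charts `h ≠ 0` of `Proj O[W]`, and `R` is a Dedekind ring (or a field), or
`V ∩ E` is log uniformizable on `Spec R`. -/
def IsBaseModel {E K : Type u} [Field E] [Field K] [Algebra E K] (V : ValuationSubring K)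
    (O : Subring K) (W : Set K) (R : Subring E) : Prop :=
  IsNoetherianRing R ∧ (∀ g : E, ∃ a ∈ R, ∃ b ∈ R, b ≠ 0 ∧ g = a * b⁻¹) ∧
    O ≤ R.map (algebraMap E K) ∧ (∀ h ∈ W, h ≠ 0 → R.map (algebraMap E K) ≤ chart O W h) ∧
    (IsDedekindDomain R ∨ IsLogUniformizable (V.comap (algebraMap E K)) R)

/-- The nonzero homogeneous coordinates `W` are monomials, and for every chart `h ≠ 0` the elements
of the subspaces `Z s` are quotients `c' / c` of elements of its coordinate ring such that `c` is a
monomial. -/
def IsMonomialModel {E K : Type u} [Field E] [Field K] [Algebra E K] {n r : ℕ}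
    (Z : Fin n → Submodule E K) (f : Fin r → K) (O : Subring K) (W : Set K) : Prop :=
  (∃ h ∈ W, h ≠ 0) ∧ (∀ g ∈ W, g ≠ 0 → ∃ z ∈ monomials Z f, (z : K) = g) ∧
  ∀ h ∈ W, h ≠ 0 → ∀ s, ∀ y ∈ Z s,
    ∃ c ∈ chart O W h, (∃ z ∈ monomials Z f, (z : K) = c) ∧ c * y ∈ chart O W h

/-- Let `V` be a valuation ring of a field `K` in which the prime number `p` is not a unit. Let
`O ⊆ V` be a Dedekind ring (for example, a discrete valuation ring) and `π` an element of `O`
(for example, a uniformizer), `π ≠ 0`, with `K = V[1/π]`. Let `𝒳 = Proj O[W]` be an integral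
projective `O`-scheme with the function field `K` and the homogeneous coordinates `W`. Let `R` be a
base model (`IsBaseModel`) with the fraction field `E`. Let `K` be generated over `E` by
finite-dimensional subspaces `Z 0, ..., Z (n - 1)`, and let `f 0, ..., f (r - 1)` be elements of `K`
such that each `f j` is a sum of terms, where a term is the product of a nonzero element `c j i` of
`E`, of `d j i s` nonzero elements `g j i s t` of `Z s` for all `s`, and of powers of elements
`f l ≠ 0` with `l < j`. Give `f j` the degree (in `(ℤ/p)^n`) of its first term, and suppose that the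
differences of the degrees of the other terms of `f j` and the degree of `f j`, for all `j`
together, are linearly independent modulo `p`. Suppose that the relations `f j = 0` are complete: the
transcendence degree of `K` over `E` is the sum of the dimensions of the `Z s` minus the number of
indices `j` with `f j = 0`. Let `𝒳` be given by monomials (`IsMonomialModel`).

Then there is a closed subscheme of `𝒳`, contained in the fibre over `π = 0`, such that the
blowing-up of `𝒳` in this subscheme is regular at the centres of `V` and of all valuation rings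
`V₁ ⊇ V`, with a fibre over `π = 0` with normal crossings there. -/
theorem result {p : ℕ} [Fact p.Prime] {E K : Type u} [Field E] [Field K] [Algebra E K]
    (V : ValuationSubring K) (hpV : V.valuation (p : K) < 1)
    (O : Subring K) [IsDedekindDomain O] (hO : ∀ a ∈ O, a ∈ V)
    (π : K) (hπ : π ∈ O) (hπ0 : π ≠ 0) (htop : ∀ a : K, ∃ n : ℕ, π ^ n * a ∈ V)
    (W : Set K) (hW : W.Finite) (R : Subring E) (hR : IsBaseModel V O W R)
    (n : ℕ) (Z : Fin n → Submodule E K) [∀ s, FiniteDimensional E (Z s)]
    (hgen : IntermediateField.adjoin E (⋃ s, (Z s : Set K)) = ⊤)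
    (r : ℕ) (ι : Fin r → Type) [∀ j, Fintype (ι j)] (i₀ : ∀ j, ι j)
    (c : ∀ j, ι j → E) (hc : ∀ j i, c j i ≠ 0) (d : ∀ j, ι j → Fin n → ℕ)
    (g : ∀ j i s, Fin (d j i s) → K) (hgW : ∀ j i s t, g j i s t ∈ Z s)
    (hg0 : ∀ j i s t, g j i s t ≠ 0) (e : ∀ j, ι j → Fin r → ℕ) (f : Fin r → K)
    (he : ∀ j i l, e j i l ≠ 0 → l < j ∧ f l ≠ 0)
    (hf : ∀ j, f j = ∑ i, algebraMap E K (c j i) * ((∏ s, ∏ t, g j i s t) * ∏ l, f l ^ e j i l))
    (deg : Fin r → Fin n → ZMod p) (hdeg : ∀ j, deg j = degree deg (d j (i₀ j)) (e j (i₀ j)))
    (hind : LinearIndependent (ZMod p) fun q : (j : Fin r) × {i : ι j // i ≠ i₀ j} =>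
      degree deg (d q.1 q.2) (e q.1 q.2) - deg q.1)
    (htr : Algebra.trdeg E K + (Nat.card {j // f j = 0} : Cardinal.{u}) =
      ((∑ s, Module.finrank E (Z s) : ℕ) : Cardinal.{u}))
    (hM : IsMonomialModel Z f O W) :
    ∃ Y : Set K, IsVerticalCentre O π W Y ∧
      ∀ V₁ : ValuationSubring K, V ≤ V₁ → IsRegularAtCentre V₁ O (blowUpCoordinates W Y) π := by
  obtain ⟨⟨h₀, hh₀, hh₀0⟩, hWm, hWA⟩ := hM
  obtain ⟨hRn, hfr, hOR, hRA, hRLU⟩ := hR
  -- the chart
  obtain ⟨h, hh, hhm⟩ := Set.exists_max_image W V.valuation hW ⟨h₀, hh₀⟩
  have hh0 : h ≠ 0 := by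
    rintro rfl
    have h1 := hhm h₀ hh₀
    rw [map_zero, le_zero_iff, map_eq_zero] at h1
    exact hh₀0 h1
  have hhV : ∀ v ∈ W, v / h ∈ V := by
    intro v hv
    rw [← V.valuation_le_one_iff, map_div₀]
    exact (div_le_one₀ (zero_lt_iff.2 ((map_ne_zero _).2 hh0))).2 (hhm v hv)
  have hchV : chart O W h ≤ V.toSubring := by
    unfold chart
    rw [Subring.closure_le]
    rintro g (hg | ⟨g', hg', rfl⟩)
    · exact hO g hg
    · exact hhV g' hg'
  have hRW : R ≤ (V.comap (algebraMap E K)).toSubring := fun a ha =>
    hchV (hRA h hh hh0 ⟨a, ha, rfl⟩)
  have hLU : LogUnif (V.comap (algebraMap E K)) R := by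
    rcases hRLU with hR | hR
    · exact logUnif_of_dedekind _ R hRW hfr
    · exact hR
  obtain ⟨hMod, T', n', X, hSt, hmon⟩ := Pool.Agent.U186.RD.ind_stage V p hpV O hO R
    hfr hLU Z hgen ι i₀ c hc d g hgW hg0 e f he hf deg hdeg hind htr hW hh
    hh0 hhV hWm hOR (hRA h hh hh0) (hWA h hh hh0) π hπ hπ0
  obtain ⟨Y, d', n'', h1, h2, h3, w', h4, h5, h6, h7⟩ :=
    Pool.Agent.N98.SS.model_at_of V O hO hW hh hh0 hhV hSt hmon hπ htop
  refine ⟨Y, ⟨h1, d', n'', h2, h3⟩, fun V₁ hV₁ => ⟨w', h4, h5, fun v hv => hV₁ (h6 v hv), ?_⟩⟩
  refine Pool.Agent.N98.SS.nc_coarse V V₁ hV₁ _ ?_ π h7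
  unfold chart
  rw [Subring.closure_le]
  rintro z (hz | ⟨y, hy, rfl⟩)
  · exact hO z hz
  · exact h6 y hy

end Pool.Agent.Results.MP_1a953e_ag.NormalCrossingsAllPoints
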