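import Pool.Agent.N98.SS.Fin2
import Pool.Agent.N98.SS.Gen
import Pool.Agent.H176.DT.H12
import Pool.Agent.H176.DT.H13
import Pool.Agent.U186.ASC.Adic

/-!
MP_1a953e_ag: semistable uniformization, in mixed and equal characteristic and in all dimensions, of
points of `X^ad` of all ranks, for the loci where the rank of a matrix drops.

Let `k` be a (complete) discretely valued field with the ring of integers `O`, the uniformizer `π`
and the residue characteristic `p > 0`. Let `X` be an integral projective `k`-scheme with the
function field `K`, with the projective flat model `𝒳` over `O`. Consider a point of the adic space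
`X^ad` over the generic point of `X`, that is, a valuation ring `V` of `K`, of any rank, which
contains `O`, such that `π` is topologically nilpotent. Let `E ⊆ K` be a subfield with `k ⊆ E` (for
example, `E = k`), and `R` a noetherian ring with fraction field `E`, contained in the coordinate
ring of the affine chart of `𝒳` which contains the centre of `V`, such that `R` is a Dedekind ring
(for example, `R = O`), or `V ∩ E` is log uniformizable on `Spec R` (this is known if `R` is
quasi-excellent of dimension at most `3`, by Cossart and Piltant). Suppose that `K` is the function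
field of an irreducible component of the locus in the affine space over `E`, with the coordinates
`t e`, where the columns of the matrix `M + ∑ e, t e ^ m e • u e ⊗ v e` are linearly dependent, with
`M`, `u e`, `v e` over `E` and `m e` prime to `p`; let `w` be a kernel vector over `K` with a
coordinate one. Suppose that the homogeneous coordinates of `𝒳` are monomials: products of powers of
elements of `E`, of the `t e` and of linear combinations over `E` of the `w j` and
`t e ^ m e * (v e ⬝ w)`, and that the `t e` and `w j` are quotients of regular functions on the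
chart, the denominators being monomials. Suppose that `|π|` is not a `p`-th power in the value
group of `V`.

Then there are numbers `d` and `N₀` such that, for every `N ≥ N₀` divisible by `d`, for `l = k(ϖ)`,
`ϖ ^ N = π`, with the ring of integers `O[ϖ]`, and for every preimage `V'` of `V` in `X_l^ad`, a
blowing-up of `𝒳 ⊗ O[ϖ]` in a closed subscheme of the special fibre, that is, an admissible
blowing-up, is semistable at the specialization of `V'`, and at the specializations of all
generizations of `V'` in `X_l^ad`: the local ring is regular, and `ϖ` is a product of distinct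
elements of a regular system of parameters. The number `d` is prime to `p` (so that one can choose
`N` prime to `p` and `l / k` is tamely ramified), unless the value of `π` is infinitely near to a
`p`-th power `|g| ^ p` (all powers of the value of `π / g ^ p` are greater than the value of `π`);
in particular, `d` is prime to `p` if `V` has rank one. There is no condition on the dimension, on
the rank, on the defect and on the residue field of `V`.

Example: `X` is the closure in the projective space over `k`, with the coordinates `1`, `t e`, `w j`,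
of the incidence variety of the points `t` of a component of the hypersurface
`det (M + ∑ e, t e ^ m e • u e ⊗ v e) = 0` (graph and configuration hypersurfaces, sparse generic
determinants) and their kernel vectors `w`, `w i = 1`, and `𝒳` is its closure over `O`; this is
birational to the component itself. Every chart satisfies the conditions, for all `V`.

The proof: the completeness of the linear relations between the `w j` and the
`t e ^ m e * (v e ⬝ w)` (see MP_5b7a2c_ag.RankDropAscent), stages on which the homogeneous
coordinates become monomials (adapted from MP_1a953e_ag.FrobeniusLevelsAdicPoints, for the systems of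
AscentLogUniformization in mixed characteristic), and the construction of semistable models from
log regular ones of the starting files (helper98, helper176 and others).

helper186.
-/

set_option autoImplicit false

universe u

namespace Pool.Agent.Results.MP_1a953e_ag.RankDropAdicPoints

open Pool.Agent.W418.LU2

/-- The local ring of `Spec B` at the centre of the valuation ring `V`: the fractions of elements
of `B` whose denominators are units of `V`. -/
def centreRing {F : Type u} [Field F] (V : ValuationSubring F) (B : Subring F) : Subring F where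
  carrier := {x | ∃ a ∈ B, ∃ b ∈ B, b ≠ 0 ∧ b⁻¹ ∈ V ∧ x = a * b⁻¹}
  mul_mem' := (lo V.toSubring B).mul_mem'
  one_mem' := (lo V.toSubring B).one_mem'
  add_mem' := (lo V.toSubring B).add_mem'
  zero_mem' := (lo V.toSubring B).zero_mem'
  neg_mem' := (lo V.toSubring B).neg_mem'

/-- The subring `P` of the field `K` is a regular local ring, and `ϖ` is the product of some (at
least one) of the elements of a regular system of parameters. (If `ϖ` is a uniformizer of a discrete
valuation ring `O` with perfect residue field and `P` is the local ring of an integral flat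
`O`-scheme of finite type at a point of the special fibre, then these elements `t i` define a
morphism from a neighbourhood of this point to `Spec O[t 0, ..., t d] / (t 0 * ... * t d - ϖ)` which
is flat with regular, hence smooth, fibre through this point; so it is smooth there.) -/
def IsSemistable {K : Type u} [Field K] (P : Subring K) (ϖ : K) : Prop :=
  ∃ (_ : IsRegularLocalRing P) (n : ℕ) (x : Fin n → P) (S : Finset (Fin n)),
    Ideal.span (Set.range x) = IsLocalRing.maximalIdeal P ∧ ringKrullDim P = n ∧
      S.Nonempty ∧ ϖ = ∏ i ∈ S, (x i : K)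

/-- The coordinate ring `O[v / w : v ∈ W]` of the chart `w ≠ 0` of the projective `O`-scheme
`Proj O[W]` with the function field `K` and the homogeneous coordinates `W ⊆ K`. -/
def chart {K : Type u} [Field K] (O : Subring K) (W : Set K) (w : K) : Subring K :=
  Subring.closure ((O : Set K) ∪ {z | ∃ v ∈ W, z = v / w})

/-- `Y` is a finite set of forms of some degree `d` over `O` in the homogeneous coordinates `W`,
and `p ^ n` times any form of degree `d` is a linear combination of the forms in `Y`, for some `n`.
So the closed subscheme of `Proj O[W]` defined by the forms in `Y` is contained in the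
fibre over `p`. -/
def IsVerticalCentre {K : Type u} [Field K] (O : Subring K) (p : K) (W Y : Set K) : Prop :=
  Y.Finite ∧ ∃ d n : ℕ, Y ⊆ ((Submodule.span O W) ^ d : Submodule O K) ∧
    ∀ z ∈ (Submodule.span O W) ^ d, p ^ n * z ∈ Submodule.span O Y

/-- The homogeneous coordinates of the blowing-up of `Proj O[W]` in the closed subscheme which is
defined by the forms in `Y`. -/
def blowUpCoordinates {K : Type u} [Field K] (W Y : Set K) : Set K :=
  {z | ∃ y ∈ Y, ∃ v ∈ W, z = y * v}

/-- The projective scheme `Proj O[W]` is semistable at the centre of `V`, which lies in the chart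
`w ≠ 0`. -/
def IsSemistableAt {K : Type u} [Field K] (V : ValuationSubring K) (O : Subring K) (W : Set K)
    (ϖ : K) : Prop :=
  ∃ w ∈ W, w ≠ 0 ∧ (∀ v ∈ W, v / w ∈ V) ∧ IsSemistable (centreRing V (chart O W w)) ϖ

/-- The ring `O[ϖ]`. (If `O` is a discrete valuation ring with the uniformizer `π = ϖ ^ N`, then it
is the ring of integers of the totally ramified extension `k(ϖ)` of the field of fractions `k` of
`O`.) -/
def ramifiedRing {L K' : Type u} [Field L] [Field K'] (φ : L →+* K') (O : Subring L) (ϖ : K') :
    Subring K' :=
  Subring.closure ((O.map φ : Set K') ∪ {ϖ})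

/-- `K' = K(ϖ)` with `ϖ ^ N = π`, and `V'` is a valuation ring of `K'` over the valuation ring `V`
of `K`. -/
def IsLift {K K' : Type u} [Field K] [Field K'] [Algebra K K'] (V : ValuationSubring K) (π : K)
    (N : ℕ) (V' : ValuationSubring K') (ϖ : K') : Prop :=
  V'.comap (algebraMap K K') = V ∧ ϖ ^ N = algebraMap K K' π ∧
    ∀ z : K', z ∈ Subfield.closure (Set.range (algebraMap K K') ∪ {ϖ})

/-- The chart `A[I / f]` of the blowing-up of `Spec A` in the ideal `I`. -/
def blowUpChart {F : Type u} [Field F] (A : Subring F) (I : Ideal A) (f : A) : Subring F :=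
  Subring.closure ((A : Set F) ∪ {z | ∃ a ∈ I, z = (a : F) / (f : F)})

/-- `P` is a regular local ring and the zero set of `J` is a divisor with strict normal
crossings: the radical of `J` is generated by the product of some of the elements of a regular
system of parameters. -/
def RegularPair (P : Type u) [CommRing P] (J : Ideal P) : Prop :=
  ∃ (_ : IsRegularLocalRing P) (n : ℕ) (x : Fin n → P) (s : Finset (Fin n)),
    Ideal.span (Set.range x) = IsLocalRing.maximalIdeal P ∧ ringKrullDim P = n ∧
      J.radical = Ideal.span {∏ i ∈ s, x i}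

/-- The blowing-up of `X = Spec A` in `V(I)` is a log desingularization of `(X, V(D))` along the
valuation ring `V`. Here `f ∈ I` generates `I V`, the centre of the lift of the valuation lies in
the chart `Spec A[I / f]`, and the ideal `D I` defines the preimage of `V(D) ∪ V(I)`. -/
def IsLogDesingularization {F : Type u} [Field F] (V : ValuationSubring F) (A : Subring F)
    (D I : Ideal A) : Prop :=
  ∃ f ∈ I, f ≠ 0 ∧ (∀ a ∈ I, (a : F) / (f : F) ∈ V) ∧
    RegularPair (centreRing V (blowUpChart A I f))
      (Ideal.span {z | ∃ a ∈ D * I, (z : F) = (a : F)})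

/-- The valuation ring `V` is log uniformizable on `Spec A`. (The blowings-up in the ideals
`I₀ * I₁` are cofinal: the blowing-up in `I₀ * I₁` factors through the blowing-up in `I₀`.) -/
def IsLogUniformizable {F : Type u} [Field F] (V : ValuationSubring F) (A : Subring F) : Prop :=
  ∀ D I₀ : Ideal A, D ≠ ⊥ → I₀ ≠ ⊥ →
    ∃ I₁ : Ideal A, I₁ ≠ ⊥ ∧ IsLogDesingularization V A D (I₀ * I₁)

/-- `R` is a noetherian ring with fraction field `E`, which contains `O` and is contained in the
coordinate ring of the chart `w ≠ 0` of `Proj O[W]`, and `R` is a Dedekind ring (or a field), or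
`V ∩ E` is log uniformizable on `Spec R`. -/
def IsBaseModel {E K : Type u} [Field E] [Field K] [Algebra E K] (V : ValuationSubring K)
    (O : Subring K) (W : Set K) (w : K) (R : Subring E) : Prop :=
  IsNoetherianRing R ∧ (∀ g : E, ∃ a ∈ R, ∃ b ∈ R, b ≠ 0 ∧ g = a * b⁻¹) ∧
    O ≤ R.map (algebraMap E K) ∧ R.map (algebraMap E K) ≤ chart O W w ∧
    (IsDedekindDomain R ∨ IsLogUniformizable (V.comap (algebraMap E K)) R)

/-- The `a × b` matrix `M + ∑ e, x e • u e ⊗ v e` over the `E`-algebra `S`. -/
noncomputable def pencil {E S : Type u} [CommRing E] [CommRing S] [Algebra E S] {a b N : ℕ}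
    (M : Matrix (Fin a) (Fin b) E) (u : Fin N → Fin a → E) (v : Fin N → Fin b → E)
    (x : Fin N → S) : Matrix (Fin a) (Fin b) S :=
  Matrix.of fun i j => algebraMap E S (M i j) + ∑ e, x e * algebraMap E S (u e i * v e j)

/-- The ideal generated by the minors of size `b` of an `a × b` matrix. Its zeros are the points at
which the rank is less than `b`. -/
noncomputable def columnMinors {S : Type u} [CommRing S] {a b : ℕ}
    (B : Matrix (Fin a) (Fin b) S) : Ideal S :=
  Ideal.span (Set.range fun f : Fin b → Fin a => (B.submatrix f id).det)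

/-- `K` is the function field of an irreducible component of the closed subset of the affine space
over `E` at which the rank of the matrix `M + ∑ e, X e ^ m e • u e ⊗ v e` (whose rank over
`E[X 0, ..., X (N - 1)]` is `b`) is less than `b`, and `t e ∈ K` are the coordinate functions; `w` is
a vector over `K`, with a coordinate one, in the kernel of `M + ∑ e, t e ^ m e • u e ⊗ v e`. -/
def IsRankDropField {E K : Type u} [Field E] [Field K] [Algebra E K] {a b N : ℕ}
    (M : Matrix (Fin a) (Fin b) E) (u : Fin N → Fin a → E) (v : Fin N → Fin b → E)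
    (m : Fin N → ℕ) (t : Fin N → K) (w : Fin b → K) : Prop :=
  columnMinors (pencil M u v fun e => (MvPolynomial.X e : MvPolynomial (Fin N) E) ^ m e) ≠ ⊥ ∧
  (∃ P ∈ (columnMinors (pencil M u v
      fun e => (MvPolynomial.X e : MvPolynomial (Fin N) E) ^ m e)).minimalPrimes,
    ∀ F : MvPolynomial (Fin N) E, F ∈ P ↔ MvPolynomial.aeval t F = (0 : K)) ∧
  IntermediateField.adjoin E (Set.range t) = ⊤ ∧
  (∃ i, w i = 1) ∧ (pencil M u v fun e => t e ^ m e).mulVec w = 0

/-- The elements `w j` and `t e ^ m e * ∑ j, v e j * w j`. -/
noncomputable def coordinates {E K : Type u} [Field E] [Field K] [Algebra E K] {b N : ℕ}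
    (v : Fin N → Fin b → E) (m : Fin N → ℕ) (t : Fin N → K) (w : Fin b → K) : Fin b ⊕ Fin N → K :=
  Sum.elim w fun e => t e ^ m e * ∑ j, algebraMap E K (v e j) * w j

/-- The group of monomials: the subgroup of `Kˣ` which is generated by the nonzero elements of
`E`, by the nonzero linear combinations over `E` of the `w j` and `t e ^ m e * ∑ j, v e j * w j`,
and by the nonzero `t e`. -/
def monomials {E K : Type u} [Field E] [Field K] [Algebra E K] {b N : ℕ}
    (v : Fin N → Fin b → E) (m : Fin N → ℕ) (t : Fin N → K) (w : Fin b → K) : Subgroup Kˣ :=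
  Subgroup.closure {z | (z : K) ∈ Set.range (algebraMap E K) ∨
    (z : K) ∈ Submodule.span E (Set.range (coordinates v m t w)) ∨ ∃ e, (z : K) = t e}

/-- The nonzero homogeneous coordinates `W` are monomials, and the `t e` and `w j` are quotients
`c' / c` of elements of the coordinate ring of the chart `h ≠ 0` such that `c` is a monomial. -/
def IsMonomialModel {E K : Type u} [Field E] [Field K] [Algebra E K] {b N : ℕ}
    (v : Fin N → Fin b → E) (m : Fin N → ℕ) (t : Fin N → K) (w : Fin b → K)
    (O : Subring K) (W : Set K) (h : K) : Prop :=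
  (∀ g ∈ W, g ≠ 0 → ∃ z ∈ monomials v m t w, (z : K) = g) ∧
  (∀ e, ∃ c ∈ chart O W h, (∃ z ∈ monomials v m t w, (z : K) = c) ∧ c * t e ∈ chart O W h) ∧
  ∀ j, ∃ c ∈ chart O W h, (∃ z ∈ monomials v m t w, (z : K) = c) ∧ c * w j ∈ chart O W h

/-- Let `V` be a valuation ring of a field `K` in which the prime number `p` is not a unit. Let
`O ⊆ V` be a Dedekind ring (for example, a discrete valuation ring) and `π ≠ 0` an element of `O`
(for example, a uniformizer) with `|π| < 1`, such that the powers of `|π|` are cofinal. Let
`𝒳 = Proj O[W]` be an integral projective `O`-scheme with the function field `K` and the homogeneous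
coordinates `W`; let the chart `h ≠ 0` contain the centre of `V`. Let `R` be a base model
(`IsBaseModel`) with the fraction field `E`. Let `K` be the function field of a component of the
locus over `E` at which the rank of the matrix `M + ∑ e, t e ^ m e • u e ⊗ v e` is less than its
number `b` of columns, with the kernel vector `w` (`IsRankDropField`), let the `m e` be prime to `p`,
and let `𝒳` be given by monomials (`IsMonomialModel`). Suppose that `|π|` is not a `p`-th power in
the value group of `V`.

Then there are `d`, prime to `p` unless `|π|` is infinitely near to a `p`-th power, and `N₀` such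
that for all `N' ≥ N₀` divisible by `d` there are `K' = K(ϖ)`, `ϖ ^ N' = π`, and valuation rings `V'`
of `K'` over `V`, and for all such `K'` and `V'` there is a closed subscheme of the fibre of
`𝒳 ⊗ O[ϖ]` over `ϖ = 0` such that the blowing-up in this subscheme (the main component if
`K ⊗ k(ϖ)` is not a field) is semistable at the centres of all valuation rings `V₁ ⊇ V'` with
`|ϖ| < 1`. -/
theorem result {p : ℕ} [Fact p.Prime] {E K : Type u} [Field E] [Field K] [Algebra E K]
    (V : ValuationSubring K) (hpV : V.valuation (p : K) < 1)
    (O : Subring K) [IsDedekindDomain O] (hO : ∀ a ∈ O, a ∈ V)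
    (π : K) (hπ : π ∈ O) (hπ0 : π ≠ 0) (hπ1 : V.valuation π < 1)
    (hπV : ∀ g : K, g ≠ 0 → ∃ n : ℕ, V.valuation π ^ n ≤ V.valuation g)
    (hdiv : ∀ g : K, V.valuation g ^ p ≠ V.valuation π)
    (W : Set K) (hW : W.Finite) (h : K) (hh : h ∈ W) (hh0 : h ≠ 0) (hhV : ∀ g ∈ W, g / h ∈ V)
    (R : Subring E) (hR : IsBaseModel V O W h R)
    {a b N : ℕ} (M : Matrix (Fin a) (Fin b) E) (u : Fin N → Fin a → E) (v : Fin N → Fin b → E)
    (m : Fin N → ℕ) (hm : ∀ e, ¬ p ∣ m e) (t : Fin N → K) (w : Fin b → K)
    (hK : IsRankDropField M u v m t w) (hM : IsMonomialModel v m t w O W h) :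
    ∃ d N₀ : ℕ, 0 < d ∧
      (p ∣ d → ∃ g : K, ∀ n : ℤ, V.valuation π < V.valuation (π / g ^ p) ^ n) ∧
      ∀ N' : ℕ, N₀ ≤ N' → d ∣ N' →
      (∃ (K' : Type u) (_ : Field K') (_ : Algebra K K') (V' : ValuationSubring K') (ϖ : K'),
        IsLift V π N' V' ϖ) ∧
      ∀ {K' : Type u} [Field K'] [Algebra K K'] (V' : ValuationSubring K') (ϖ : K'),
        IsLift V π N' V' ϖ →
        ∃ Y : Set K',
          IsVerticalCentre (ramifiedRing (algebraMap K K') O ϖ) ϖ (algebraMap K K' '' W) Y ∧
          ∀ V₁ : ValuationSubring K', V' ≤ V₁ → V₁.valuation ϖ < 1 →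
            IsSemistableAt V₁ (ramifiedRing (algebraMap K K') O ϖ)
              (blowUpCoordinates (algebraMap K K' '' W) Y) ϖ := by
  have hp : p.Prime := Fact.out
  obtain ⟨hRn, hfr, hOR, hRA, hRLU⟩ := hR
  obtain ⟨hI, ⟨P, hPm, hPt⟩, hgen, ⟨i₀, hwi⟩, hw⟩ := hK
  obtain ⟨hWm, htA, hwA⟩ := hM
  have hchV : chart O W h ≤ V.toSubring := by
    unfold chart
    rw [Subring.closure_le]
    rintro g (hg | ⟨g', hg', rfl⟩)
    · exact hO g hg
    · exact hhV g' hg'
  have hRW : R ≤ (V.comap (algebraMap E K)).toSubring := fun a ha => hchV (hRA ⟨a, ha, rfl⟩)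
  have hLU : LogUnif (V.comap (algebraMap E K)) R := by
    rcases hRLU with hR | hR
    · exact logUnif_of_dedekind _ R hRW hfr
    · exact hR
  obtain ⟨hMod, T', n', X, hSt, hmon⟩ := Pool.Agent.U186.RD.drop_stage V p hpV O hO R hfr hLU M u v
    m hm hI P hPm t hgen hPt w i₀ hwi hw hW hh hh0 hhV hWm hOR hRA htA hwA π hπ hπ0
  have hval : ∀ q' : ℕ, q'.Prime → q' ≠ p → V.valuation (q' : K) = 1 := by
    intro q' hq' hne
    have hcop : Nat.Coprime q' p := (Nat.coprime_primes hq' hp).2 hne
    have hint : ∀ n : ℤ, V.valuation (n : K) ≤ 1 := fun n =>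
      (V.valuation_le_one_iff _).2 (intCast_mem V n)
    refine le_antisymm (by exact_mod_cast hint q') ?_
    by_contra hlt
    push Not at hlt
    have h1 : (q' : K) * (Nat.gcdA q' p : K) + (p : K) * (Nat.gcdB q' p : K) = 1 := by
      have h2 := Nat.gcd_eq_gcd_ab q' p
      rw [hcop] at h2
      have h3 := congrArg (fun n : ℤ => (n : K)) h2
      push_cast at h3
      exact h3.symm
    have h2 : V.valuation ((q' : K) * (Nat.gcdA q' p : K)) < 1 := by
      rw [map_mul]
      exact mul_lt_one_of_lt_of_le hlt (hint _)
    have h3 : V.valuation ((p : K) * (Nat.gcdB q' p : K)) < 1 := by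
      rw [map_mul]
      exact mul_lt_one_of_lt_of_le hpV (hint _)
    have h4 := V.valuation.map_add_lt h2 h3
    rw [h1, map_one] at h4
    exact lt_irrefl _ h4
  obtain ⟨d, N₀, hd, hvd, h3⟩ := Pool.Agent.N98.SS.ss_main_gen Pool.Agent.H176.DT.p_et6
    Pool.Agent.H176.DT.p_tor6 V O hO hW hh hh0 hhV hMod π hSt hmon hπ0 hπ1 hπV (by
      intro q' hq' hlt
      by_cases hne : q' = p
      · rw [hne]
        exact hdiv
      · rw [hval q' hq' hne] at hlt
        exact absurd hlt (lt_irrefl _))
  refine ⟨d, N₀ + 1, hd, ?_, fun N hN' hdN =>
    ⟨Pool.Agent.H176.DT.exists_root _ _ (by omega), ?_⟩⟩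
  · intro hpd
    rcases hvd p hp hpd with h4 | h4
    · rw [h4] at hpV
      exact absurd hpV (lt_irrefl _)
    · exact h4
  have hN : N₀ ≤ N := by omega
  rintro K' _ _ V' ϖ ⟨hV', hϖ, hgen'⟩
  obtain ⟨Y, d', n', h4, h5, h6, w', h7, h8, h9, P, h10, h11⟩ := h3 N hN hdN V' ϖ hV' hϖ hgen'
  have h12 : ramifiedRing (algebraMap K K') O ϖ = Pool.Agent.H176.DT.Orm O ϖ := rfl
  rw [h12]
  refine ⟨Y, ⟨h4, d', n', h5, h6⟩, fun V₁ hV₁ hϖ₁ => ⟨w', h7, h8, fun z hz => hV₁ (h9 z hz), ?_⟩⟩
  subst h10
  have hOV' : ∀ a : K, a ∈ V → algebraMap K K' a ∈ V' := by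
    intro a ha
    have h13 : a ∈ V'.comap (algebraMap K K') := by rw [hV']; exact ha
    exact h13
  have hϖV : ϖ ∈ V' := by
    rw [← V'.valuation_le_one_iff]
    by_contra hcon
    push Not at hcon
    have h13 : 1 < V'.valuation ϖ ^ N := one_lt_pow₀ hcon (by omega)
    rw [← map_pow, hϖ] at h13
    exact absurd ((V'.valuation_le_one_iff _).2 (hOV' π (hO π hπ))) (not_le.2 h13)
  refine Pool.Agent.N98.SS.semi_coarse V' V₁ hV₁ _ ?_ ϖ hϖ₁ h11
  unfold chart
  rw [Subring.closure_le]
  rintro z (hz | ⟨y, hy, rfl⟩)
  · refine (?_ : Pool.Agent.H176.DT.Orm O ϖ ≤ V'.toSubring) hz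
    change Subring.closure ((O.map (algebraMap K K') : Set K') ∪ {ϖ}) ≤ _
    rw [Subring.closure_le]
    rintro z (⟨a, ha, rfl⟩ | hz)
    · exact hOV' a (hO a ha)
    · rw [Set.mem_singleton_iff.1 hz]
      exact hϖV
  · exact h9 y hy

end Pool.Agent.Results.MP_1a953e_ag.RankDropAdicPoints
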